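import Mathlib

/-!
# Iterated maximal left star factorization: basic facts
-/

namespace Pool.Agent.Hhelper75.Star

variable {α : Type}

/-- The maximal left star of a language `X`: the words `s` with `s X ⊆ X`. -/
def leftStar (X : Set (List α)) : Set (List α) := {s | ∀ a ∈ X, s ++ a ∈ X}

/-- The minimal tail of `X` with respect to its maximal left star: `X \ (leftStar X \ 1) X`. -/
def minTail (X : Set (List α)) : Set (List α) :=
  {w | w ∈ X ∧ ¬ ∃ s : List α, s ≠ [] ∧ s ∈ leftStar X ∧ ∃ a ∈ X, s ++ a = w}

theorem nil_mem_leftStar (X : Set (List α)) : [] ∈ leftStar X := by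
  intro a ha; simpa using ha

theorem append_mem_leftStar {X : Set (List α)} {s t : List α} (hs : s ∈ leftStar X)
    (ht : t ∈ leftStar X) : s ++ t ∈ leftStar X := by
  intro a ha
  rw [List.append_assoc]
  exact hs _ (ht a ha)

theorem minTail_subset (X : Set (List α)) : minTail X ⊆ X := fun _ h => h.1

/-- Every word of `X` is a product of a word of the maximal left star and one of the tail. -/
theorem exists_decomp (X : Set (List α)) :
    ∀ a ∈ X, ∃ b ∈ leftStar X, ∃ c ∈ minTail X, b ++ c = a := by
  have key : ∀ n : ℕ, ∀ a ∈ X, a.length ≤ n →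
      ∃ b ∈ leftStar X, ∃ c ∈ minTail X, b ++ c = a := by
    intro n
    induction n with
    | zero =>
      intro a ha hn
      have h0 : a = [] := List.length_eq_zero_iff.mp (Nat.le_zero.mp hn)
      subst h0
      refine ⟨[], nil_mem_leftStar X, [], ⟨ha, ?_⟩, rfl⟩
      rintro ⟨s, hs, -, a, -, h⟩
      exact hs (List.append_eq_nil_iff.mp h).1
    | succ n ih =>
      intro a ha hn
      by_cases h : a ∈ minTail X
      · exact ⟨[], nil_mem_leftStar X, a, h, rfl⟩
      · have h' : ∃ s : List α, s ≠ [] ∧ s ∈ leftStar X ∧ ∃ a' ∈ X, s ++ a' = a := by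
          by_contra hc
          exact h ⟨ha, hc⟩
        obtain ⟨s, hs0, hs, a', ha', rfl⟩ := h'
        have hpos : 0 < s.length := List.length_pos_iff.mpr hs0
        have hlen : a'.length ≤ n := by
          rw [List.length_append] at hn; omega
        obtain ⟨b, hb, c, hc, rfl⟩ := ih a' ha' hlen
        exact ⟨s ++ b, append_mem_leftStar hs hb, c, hc, by rw [List.append_assoc]⟩
  intro a ha
  exact key a.length a ha le_rfl

theorem minTail_nonempty {X : Set (List α)} (hX : X.Nonempty) : (minTail X).Nonempty := by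
  obtain ⟨a, ha⟩ := hX
  obtain ⟨b, -, c, hc, -⟩ := exists_decomp X a ha
  exact ⟨c, hc⟩

theorem eq_singleton_or (X : Set (List α)) :
    leftStar X = {[]} ∨ ∃ s ∈ leftStar X, s ≠ [] := by
  by_cases h : ∃ s ∈ leftStar X, s ≠ []
  · exact Or.inr h
  · left
    push Not at h
    ext s
    exact ⟨fun hs => h s hs, fun hs => by rw [Set.mem_singleton_iff.mp hs]; exact nil_mem_leftStar X⟩

end Pool.Agent.Hhelper75.Star
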