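import Pool.Agent.Hhelper75.Star.Growth

/-!
# Termination after one step when idempotents can be moved to the left
-/

namespace Pool.Agent.Hhelper75.Star

variable {α : Type}

/-- Some positive power of an element of a finite monoid is idempotent. -/
theorem exists_idem_pow {M : Type} [Monoid M] [Finite M] (x : M) :
    ∃ m : ℕ, 0 < m ∧ x ^ m * x ^ m = x ^ m := by
  obtain ⟨i, j, hne, hij⟩ := Finite.exists_ne_map_eq_of_infinite (fun n : ℕ => x ^ n)
  wlog hlt : i < j generalizing i j
  · exact this j i hne.symm hij.symm (lt_of_le_of_ne (not_lt.mp hlt) hne.symm)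
  obtain ⟨p, rfl⟩ := Nat.exists_eq_add_of_lt hlt
  have hij' : x ^ i = x ^ (i + (p + 1)) := by simpa [add_assoc] using hij
  have h1 : ∀ m, i ≤ m → x ^ (m + (p + 1)) = x ^ m := by
    intro m hm
    obtain ⟨k, rfl⟩ := Nat.exists_eq_add_of_le hm
    rw [show i + k + (p + 1) = i + (p + 1) + k by ring, pow_add, ← hij', ← pow_add]
  have h2 : ∀ t m, i ≤ m → x ^ (m + t * (p + 1)) = x ^ m := by
    intro t
    induction t with
    | zero => intro m _; simp
    | succ t ih =>
      intro m hm
      rw [show m + (t + 1) * (p + 1) = (m + t * (p + 1)) + (p + 1) by ring,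
        h1 _ (le_trans hm (Nat.le_add_right _ _)), ih m hm]
  refine ⟨(i + 1) * (p + 1), Nat.mul_pos (Nat.succ_pos _) (Nat.succ_pos _), ?_⟩
  rw [← pow_add]
  apply h2
  nlinarith

/-- Termination after one step for languages recognised by a finite monoid in which idempotents
can be moved to the left. -/
theorem central_terminates {M : Type} [Monoid M] [Finite M] (h : FreeMonoid α →* M) (K : Set M)
    (hK : ∀ e x y : M, e * e = e → x * e * y ∈ K → e * x * y ∈ K) {A : Set (List α)}
    (hA : ∀ w : List α, w ∈ A ↔ h (FreeMonoid.ofList w) ∈ K) (hne : A.Nonempty) :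
    leftStar (minTail A) = {[]} := by
  rcases eq_singleton_or (minTail A) with h1 | ⟨s, hs, h0⟩
  · exact h1
  · exfalso
    obtain ⟨m, hm, he⟩ := exists_idem_pow (h (FreeMonoid.ofList s))
    have hpw : ∀ i, h (FreeMonoid.ofList (pw s i)) = h (FreeMonoid.ofList s) ^ i := by
      intro i
      induction i with
      | zero => simp
      | succ i ih => rw [pw_succ, FreeMonoid.ofList_append, map_mul, ih, pow_succ']
    obtain ⟨c, hc⟩ := minTail_nonempty hne
    have ht : pw s m ∈ leftStar A := by
      intro a ha
      obtain ⟨b, hb, c', hc', rfl⟩ := exists_decomp A a ha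
      have h2 : b ++ (pw s m ++ c') ∈ A := hb _ (pw_mem hs m c' hc').1
      rw [hA, FreeMonoid.ofList_append, FreeMonoid.ofList_append, map_mul, map_mul, hpw,
        ← mul_assoc] at h2
      rw [hA, FreeMonoid.ofList_append, FreeMonoid.ofList_append, map_mul, map_mul, hpw,
        ← mul_assoc]
      exact hK _ _ _ he h2
    exact (pw_mem hs m c hc).2 ⟨pw s m, pw_ne_nil h0 hm, ht, c, hc.1, rfl⟩

end Pool.Agent.Hhelper75.Star
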