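import Pool.Agent.Hhelper75.Star.Basic

/-!
# Termination for downward closed languages

If `A` is closed under taking scattered subwords, every nontrivial `B_j` contains a letter, and
these letters are pairwise different.
-/

namespace Pool.Agent.Hhelper75.Star

variable {α : Type}

section

variable (A : Set (List α))

/-- The languages `C_j`. -/
def XX (j : ℕ) : Set (List α) := minTail^[j] A

/-- The stars `B_{j+1}`. -/
def SS (j : ℕ) : Set (List α) := leftStar (XX A j)

/-- The letters occurring in words of `B_{j+1}`. -/
def DD (j : ℕ) : Set α := {x | ∃ s ∈ SS A j, x ∈ s}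

/-- First letters of words of `B_{j+1}` belong to `B_{j+1}`. -/
def PP (j : ℕ) : Prop := ∀ x s, (x :: s) ∈ SS A j → [x] ∈ SS A j

end

variable {A : Set (List α)}

theorem XX_succ (j : ℕ) : XX A (j + 1) = minTail (XX A j) := by
  unfold XX; rw [Function.iterate_succ_apply']

theorem XX_anti {i j : ℕ} (h : i ≤ j) : XX A j ⊆ XX A i := by
  induction h with
  | refl => exact fun _ h => h
  | step _ ih => rw [Nat.succ_eq_add_one, XX_succ]; exact fun w hw => ih (minTail_subset _ hw)

theorem XX_sub (j : ℕ) : XX A j ⊆ A := XX_anti (Nat.zero_le j)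

theorem nil_mem_XX (h : [] ∈ A) (j : ℕ) : [] ∈ XX A j := by
  induction j with
  | zero => exact h
  | succ j ih =>
    rw [XX_succ]
    refine ⟨ih, ?_⟩
    rintro ⟨s, hs, -, a, -, h⟩
    exact hs (List.append_eq_nil_iff.mp h).1

theorem cut {i j : ℕ} {s u : List α} (hs : s ∈ SS A i) (h0 : s ≠ []) (hu : u ∈ XX A i)
    (hij : i < j) : s ++ u ∉ XX A j := by
  intro h
  have h1 : s ++ u ∈ XX A (i + 1) := XX_anti hij h
  rw [XX_succ] at h1
  exact h1.2 ⟨s, h0, hs, u, hu, rfl⟩

theorem cut1 {i j : ℕ} {x : α} {u : List α} (hs : [x] ∈ SS A i) (hu : u ∈ XX A i)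
    (hij : i < j) : x :: u ∉ XX A j := cut hs (List.cons_ne_nil _ _) hu hij

theorem SS_inj (hn : [] ∈ A) {i j : ℕ} {s : List α} (h0 : s ≠ []) (hi : s ∈ SS A i)
    (hj : s ∈ SS A j) : i = j := by
  have key : ∀ i j : ℕ, s ∈ SS A i → s ∈ SS A j → ¬ i < j := by
    intro i j hi hj hij
    exact cut hi h0 (nil_mem_XX hn i) hij (hj [] (nil_mem_XX hn j))
  have h1 := key i j hi hj
  have h2 := key j i hj hi
  omega

/-- A word of `XX A i` whose first letter is in no `B` from level `i` on stays. -/
theorem stay {i j : ℕ} (hij : i ≤ j) {x : α} {w : List α} (hP : ∀ l, i ≤ l → l < j → PP A l)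
    (hw : x :: w ∈ XX A i) (hx : ∀ l, i ≤ l → l < j → [x] ∉ SS A l) : x :: w ∈ XX A j := by
  induction hij with
  | refl => exact hw
  | @step m him ih =>
    have him' : i ≤ m := him
    have ih' := ih (fun l h1 h2 => hP l h1 (Nat.lt_succ_of_lt h2))
      (fun l h1 h2 => hx l h1 (Nat.lt_succ_of_lt h2))
    rw [Nat.succ_eq_add_one, XX_succ]
    refine ⟨ih', ?_⟩
    rintro ⟨s, hs, hsm, a, -, h⟩
    cases s with
    | nil => exact hs rfl
    | cons y s =>
      have hy : y = x := by simpa using congrArg List.head? h
      subst hy
      exact hx m him' (Nat.lt_succ_self m) (hP m him' (Nat.lt_succ_self m) _ _ hsm)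

theorem stay0 {j : ℕ} {x : α} {w : List α} (hP : ∀ l, l < j → PP A l)
    (hw : x :: w ∈ A) (hx : ∀ l, l < j → [x] ∉ SS A l) : x :: w ∈ XX A j :=
  stay (Nat.zero_le j) (fun l _ h => hP l h) hw (fun l _ h => hx l h)

section Down

variable (hA : ∀ u v : List α, v ∈ A → u.Sublist v → u ∈ A)
include hA

omit hA in
theorem exists_super (j : ℕ) (d : List α) (hd : ∀ y ∈ d, y ∈ DD A j) :
    ∃ s ∈ SS A j, d.Sublist s := by
  induction d with
  | nil => exact ⟨[], nil_mem_leftStar _, List.nil_sublist _⟩
  | cons x d ih =>
    obtain ⟨s, hs, hds⟩ := ih (fun y hy => hd y (List.mem_cons_of_mem _ hy))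
    obtain ⟨t, ht, hxt⟩ := hd x List.mem_cons_self
    refine ⟨t ++ s, append_mem_leftStar ht hs, ?_⟩
    have h1 : [x].Sublist t := List.singleton_sublist.mpr hxt
    exact List.Sublist.append h1 hds

theorem D_mul (j : ℕ) (d u : List α) (hd : ∀ y ∈ d, y ∈ DD A j) (hu : u ∈ XX A j) :
    d ++ u ∈ A := by
  obtain ⟨s, hs, hds⟩ := exists_super j d hd
  exact hA _ _ (XX_sub j (hs u hu)) (List.Sublist.append hds (List.Sublist.refl u))

theorem mem_SS {j : ℕ} {x : α} {s : List α} (hP : ∀ l, l < j → PP A l)
    (hx : ∀ l, l < j → [x] ∉ SS A l) (hd : ∀ y ∈ x :: s, y ∈ DD A j) : x :: s ∈ SS A j := by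
  intro u hu
  exact stay0 hP (D_mul hA j (x :: s) u hd hu) hx

omit hA in
theorem split_first {p : α → Prop} (s : List α) (h : ∃ y ∈ s, ¬ p y) :
    ∃ s1 q s3, s = s1 ++ q :: s3 ∧ (∀ y ∈ s1, p y) ∧ ¬ p q := by
  induction s with
  | nil => obtain ⟨y, hy, -⟩ := h; exact absurd hy List.not_mem_nil
  | cons x s ih =>
    by_cases hx : p x
    · have h' : ∃ y ∈ s, ¬ p y := by
        obtain ⟨y, hy, hpy⟩ := h
        rcases List.mem_cons.mp hy with rfl | hy
        · exact absurd hx hpy
        · exact ⟨y, hy, hpy⟩
      obtain ⟨s1, q, s3, rfl, h1, h2⟩ := ih h'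
      refine ⟨x :: s1, q, s3, rfl, ?_, h2⟩
      intro y hy
      rcases List.mem_cons.mp hy with rfl | hy
      · exact hx
      · exact h1 y hy
    · exact ⟨[], x, s, rfl, by simp, hx⟩

/-- The heart of the argument: a letter `x` of `B_{i+1}` and a letter `q` of an earlier star
that does not occur in `B_{i+1}` cannot both be allowed in front of `C_l`, `l ≥ i`. -/
theorem no_pair (hn : [] ∈ A) {j i m : ℕ} (hP : ∀ l, l < j → PP A l) (hmi : m < i) (hij : i < j)
    {x q : α} (hx : [x] ∈ SS A i) (hq : [q] ∈ SS A m) (hqi : q ∉ DD A i) :
    ∀ l, i ≤ l → l ≤ j →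
      ¬ (∀ d u : List α, (∀ y ∈ d, y = x ∨ y = q) → u ∈ XX A l → d ++ u ∈ A) := by
  -- levels of letters
  have lev : ∀ {a b : ℕ} {z : α}, [z] ∈ SS A a → a ≠ b → [z] ∉ SS A b :=
    fun h1 h2 h3 => h2 (SS_inj hn (List.cons_ne_nil _ _) h1 h3)
  -- a word in `A` with first letter of level `a` is in `XX A a`
  have up : ∀ {a : ℕ} {z : α} {w : List α}, a ≤ j → [z] ∈ SS A a → z :: w ∈ A →
      z :: w ∈ XX A a := fun ha hz hw =>
    stay0 (fun l hl => hP l (lt_of_lt_of_le hl ha)) hw (fun l hl => lev hz (ne_of_gt hl))
  -- a word whose first letter has level `a` and which survives level `a` survives to `j`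
  have up2 : ∀ {a b : ℕ} {z : α} {w : List α}, a < b → b ≤ j → [z] ∈ SS A a →
      z :: w ∈ XX A (a + 1) → z :: w ∈ XX A b := fun hab hb hz hw =>
    stay hab (fun l _ hl => hP l (lt_of_lt_of_le hl hb)) hw
      (fun l h1 _ => lev hz (by omega))
  intro l hil
  induction l, hil using Nat.le_induction with
  | base =>
    intro _ H
    apply hqi
    refine ⟨[x, q], ?_, by simp⟩
    intro u hu
    exact up hij.le hx (H [x, q] u (by simp) hu)
  | succ l hil ih =>
    intro hlj H
    apply ih (by omega)
    have hlj' : l < j := hlj
    -- the case where both letters occur in `B_{l+1}`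
    by_cases hboth : x ∈ DD A l ∧ q ∈ DD A l
    · intro d u hd hu
      refine D_mul hA l d u ?_ hu
      intro y hy
      rcases hd y hy with rfl | rfl
      · exact hboth.1
      · exact hboth.2
    -- the protective letter
    obtain ⟨r, μ, hr, hμ, hrl, hμl, hmμ, hμi⟩ : ∃ (r : α) (μ : ℕ), (r = x ∨ r = q) ∧ [r] ∈ SS A μ ∧
        r ∉ DD A l ∧ μ < l ∧ m ≤ μ ∧ μ ≤ i := by
      by_cases hqx : q ∈ DD A l
      · have hxl : x ∉ DD A l := fun h => hboth ⟨h, hqx⟩
        refine ⟨x, i, Or.inl rfl, hx, hxl, ?_, hmi.le, le_rfl⟩
        rcases Nat.lt_or_ge i l with h | h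
        · exact h
        · exfalso
          have : i = l := le_antisymm hil h
          subst this
          exact hxl ⟨[x], hx, by simp⟩
      · exact ⟨q, m, Or.inr rfl, hq, hqx, by omega, le_rfl, hmi.le⟩
    -- the class of words we work with
    set W : Set (List α) := {w | w ∈ XX A m ∧ ∀ d : List α, (∀ y ∈ d, y = x ∨ y = q) → d ++ w ∈ A}
      with hW
    have W1 : ∀ v ∈ XX A (l + 1), v ∈ W := fun v hv => ⟨XX_anti (by omega) hv, fun d hd => H d v hd hv⟩
    have Wx : ∀ w ∈ W, x :: w ∈ W := by
      intro w hw
      refine ⟨XX_anti hmi.le (up hij.le hx (hw.2 [x] (by simp))), ?_⟩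
      intro d hd
      have := hw.2 (d ++ [x]) (by
        intro y hy
        rcases List.mem_append.mp hy with h | h
        · exact hd y h
        · left; simpa using h)
      simpa using this
    have Wq : ∀ w ∈ W, q :: w ∈ W := by
      intro w hw
      refine ⟨up (by omega) hq (hw.2 [q] (by simp)), ?_⟩
      intro d hd
      have := hw.2 (d ++ [q]) (by
        intro y hy
        rcases List.mem_append.mp hy with h | h
        · exact hd y h
        · right; simpa using h)
      simpa using this
    have Wr : ∀ w ∈ W, r :: w ∈ W := by
      intro w hw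
      rcases hr with rfl | rfl
      · exact Wx w hw
      · exact Wq w hw
    -- `x q w` survives to level `j`
    have E : ∀ w ∈ W, x :: q :: w ∈ XX A j := by
      intro w hw
      have h0 : x :: q :: w ∈ XX A i := up hij.le hx (hw.2 [x, q] (by simp))
      refine up2 hij le_rfl hx ?_
      rw [XX_succ]
      refine ⟨h0, ?_⟩
      rintro ⟨s, hs, hsi, a, ha, h⟩
      cases s with
      | nil => exact hs rfl
      | cons y s =>
        cases s with
        | nil =>
          have h' : a = q :: w := by simpa using (List.cons.inj h).2
          subst h'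
          exact cut1 hq hw.1 hmi ha
        | cons y' s =>
          have h' : y' = q := by
            have := (List.cons.inj h).2
            simpa using congrArg List.head? this
          subst h'
          exact hqi ⟨_, hsi, by simp⟩
    -- the key extension step
    have step : ∀ z ∈ DD A l, ∀ v ∈ XX A (l + 1), ∃ v' ∈ XX A (l + 1), (z :: v).Sublist v' := by
      intro z hz v hv
      have hvW := W1 v hv
      have hvl : v ∈ XX A l := XX_anti (Nat.le_succ l) hv
      have hrv : r :: v ∉ XX A (μ + 1) := cut1 hμ (XX_anti (by omega) hv) (Nat.lt_succ_self μ)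
      have hzrv : z :: r :: v ∈ A := by
        have h1 := D_mul hA l [z] _ (by simpa using hz) (XX_anti hlj'.le (E _ (Wr v hvW)))
        refine hA _ _ h1 ?_
        simp only [List.cons_append, List.nil_append]
        exact List.Sublist.cons_cons _ (List.Sublist.cons _ (List.Sublist.cons _
          (List.Sublist.refl _)))
      have hsub : (z :: v).Sublist (z :: r :: v) :=
        List.Sublist.cons_cons _ (List.Sublist.cons _ (List.Sublist.refl _))
      by_cases hzl : [z] ∈ SS A l
      · -- Case 1
        refine ⟨z :: r :: v, ?_, hsub⟩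
        rw [XX_succ]
        refine ⟨up hlj'.le hzl hzrv, ?_⟩
        rintro ⟨s, hs, hsi, a, ha, h⟩
        cases s with
        | nil => exact hs rfl
        | cons y s =>
          cases s with
          | nil =>
            have h' : a = r :: v := by simpa using (List.cons.inj h).2
            subst h'
            exact hrv (XX_anti hμl ha)
          | cons y' s =>
            have h' : y' = r := by
              have := (List.cons.inj h).2
              simpa using congrArg List.head? this
            subst h'
            exact hrl ⟨_, hsi, by simp⟩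
      · -- Case 2
        obtain ⟨m', hm'l, hzm'⟩ : ∃ m', m' < l ∧ [z] ∈ SS A m' := by
          by_contra hcon
          push Not at hcon
          exact hzl (mem_SS hA (fun k hk => hP k (hk.trans hlj')) hcon (by simpa using hz))
        by_cases h2a : μ < m' ∧ r ∉ DD A m'
        · refine ⟨z :: r :: v, ?_, hsub⟩
          refine up2 (by omega) hlj hzm' ?_
          rw [XX_succ]
          refine ⟨up (by omega) hzm' hzrv, ?_⟩
          rintro ⟨s, hs, hsi, a, ha, h⟩
          cases s with
          | nil => exact hs rfl
          | cons y s =>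
            cases s with
            | nil =>
              have h' : a = r :: v := by simpa using (List.cons.inj h).2
              subst h'
              exact hrv (XX_anti h2a.1 ha)
            | cons y' s =>
              have h' : y' = r := by
                have := (List.cons.inj h).2
                simpa using congrArg List.head? this
              subst h'
              exact h2a.2 ⟨_, hsi, by simp⟩
        · -- Case 2b
          obtain ⟨g, hg⟩ : ∃ g, [g] ∈ SS A l := by
            obtain ⟨s, hs, hzs⟩ := hz
            cases s with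
            | nil => exact absurd hzs List.not_mem_nil
            | cons g s => exact ⟨g, hP l hlj' _ _ hs⟩
          have hgD : g ∈ DD A l := ⟨[g], hg, by simp⟩
          have hxqv : x :: q :: v ∈ XX A j := E v hvW
          have hWxqv : x :: q :: v ∈ W := Wx _ (Wq _ hvW)
          have hWr : r :: x :: q :: v ∈ W := Wr _ hWxqv
          have hrest2 : r :: x :: q :: v ∉ XX A (μ + 1) :=
            cut1 hμ (XX_anti (by omega) hxqv) (Nat.lt_succ_self μ)
          have hrA : r :: x :: q :: v ∈ A := XX_sub _ hWr.1
          have hrμ : r :: x :: q :: v ∈ XX A μ := up (by omega) hμ hrA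
          have hwA : g :: z :: r :: x :: q :: v ∈ A := by
            have h1 := D_mul hA l [g, z] _ (by
              intro y hy
              simp only [List.mem_cons, List.not_mem_nil, or_false] at hy
              rcases hy with rfl | rfl
              · exact hgD
              · exact hz) (XX_anti hlj'.le (E _ hWr))
            refine hA _ _ h1 ?_
            simp only [List.cons_append, List.nil_append]
            exact List.Sublist.cons_cons _ (List.Sublist.cons_cons _ (List.Sublist.cons _
              (List.Sublist.cons _ (List.Sublist.refl _))))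
          have hyA : z :: r :: x :: q :: v ∈ A :=
            hA _ _ hwA (List.Sublist.cons _ (List.Sublist.refl _))
          have hrest1 : z :: r :: x :: q :: v ∉ XX A l := by
            by_cases hrm' : r ∈ DD A m'
            · have hzr : [z, r] ∈ SS A m' := by
                refine mem_SS hA (fun k hk => hP k (by omega)) (fun k hk => lev hzm' (ne_of_gt hk)) ?_
                intro y hy
                simp only [List.mem_cons, List.not_mem_nil, or_false] at hy
                rcases hy with rfl | rfl
                · exact ⟨[y], hzm', by simp⟩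
                · exact hrm'
              exact cut (s := [z, r]) hzr (List.cons_ne_nil _ _) (XX_anti (by omega) hxqv) hm'l
            · have hm'μ : m' ≤ μ := by
                by_contra hcon
                exact h2a ⟨not_le.mp hcon, hrm'⟩
              exact cut1 hzm' (XX_anti hm'μ hrμ) hm'l
          refine ⟨g :: z :: r :: x :: q :: v, ?_, ?_⟩
          · rw [XX_succ]
            refine ⟨up hlj'.le hg hwA, ?_⟩
            rintro ⟨s, hs, hsi, a, ha, h⟩
            cases s with
            | nil => exact hs rfl
            | cons y s =>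
              cases s with
              | nil =>
                have h' : a = z :: r :: x :: q :: v := by simpa using (List.cons.inj h).2
                subst h'
                exact hrest1 ha
              | cons y' s =>
                cases s with
                | nil =>
                  have h' : a = r :: x :: q :: v := by
                    have := (List.cons.inj (List.cons.inj h).2).2
                    simpa using this
                  subst h'
                  exact hrest2 (XX_anti hμl ha)
                | cons y'' s =>
                  have h' : y'' = r := by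
                    have := (List.cons.inj (List.cons.inj h).2).2
                    simpa using congrArg List.head? this
                  subst h'
                  exact hrl ⟨_, hsi, by simp⟩
          · exact List.Sublist.cons _ (List.Sublist.cons_cons _ (List.Sublist.cons _
              (List.Sublist.cons _ (List.Sublist.cons _ (List.Sublist.refl _)))))
    -- iterate
    have iter : ∀ b : List α, (∀ y ∈ b, y ∈ DD A l) → ∀ v ∈ XX A (l + 1),
        ∃ v' ∈ XX A (l + 1), (b ++ v).Sublist v' := by
      intro b
      induction b with
      | nil => intro _ v hv; exact ⟨v, hv, List.Sublist.refl _⟩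
      | cons z b ihb =>
        intro hb v hv
        obtain ⟨v1, hv1, hs1⟩ := ihb (fun y hy => hb y (List.mem_cons_of_mem _ hy)) v hv
        obtain ⟨v2, hv2, hs2⟩ := step z (hb z List.mem_cons_self) v1 hv1
        exact ⟨v2, hv2, (List.Sublist.cons_cons z hs1).trans hs2⟩
    intro d u hd hu
    obtain ⟨b, hb, v, hv, rfl⟩ := exists_decomp (XX A l) u hu
    have hv' : v ∈ XX A (l + 1) := by rw [XX_succ]; exact hv
    obtain ⟨v', hv1, hs1⟩ := iter b (fun y hy => ⟨b, hb, hy⟩) v hv'
    exact hA _ _ (H d v' hd hv1) (List.Sublist.append (List.Sublist.refl d) hs1)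

theorem PP_all (hn : [] ∈ A) : ∀ j, PP A j := by
  intro j
  induction j using Nat.strong_induction_on with
  | _ j hP =>
    intro x s hs
    by_contra hx
    have hlet : ∀ y ∈ x :: s, y ∈ DD A j := fun y hy => ⟨_, hs, hy⟩
    obtain ⟨i, hij, hxi⟩ : ∃ i, i < j ∧ [x] ∈ SS A i := by
      by_contra hcon
      push Not at hcon
      exact hx (mem_SS hA hP hcon (fun y hy => hlet y (by
        simp only [List.mem_cons, List.not_mem_nil, or_false] at hy
        rw [hy]; exact List.mem_cons_self)))
    have hPi : ∀ l, l < i → PP A l := fun l hl => hP l (hl.trans hij)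
    have hxlow : ∀ l, l < i → [x] ∉ SS A l := fun l hl h =>
      (ne_of_lt hl) (SS_inj hn (List.cons_ne_nil _ _) h hxi)
    have hxD : x ∈ DD A i := ⟨[x], hxi, by simp⟩
    by_cases hall : ∀ y ∈ x :: s, y ∈ DD A i
    · exact (ne_of_lt hij) (SS_inj hn (List.cons_ne_nil _ _) (mem_SS hA hPi hxlow hall) hs)
    · push Not at hall
      obtain ⟨s1, q, s3, he, h1, h2⟩ := split_first (p := fun y => y ∈ DD A i) (x :: s) hall
      have hs1 : s1 ∈ SS A i := by
        cases s1 with
        | nil => exact nil_mem_leftStar _
        | cons y s1 =>
          have hy : x = y := (List.cons.inj he).1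
          subst hy
          exact mem_SS hA hPi hxlow h1
      have hs10 : s1 ≠ [] := by
        rintro rfl
        have hy : x = q := (List.cons.inj he).1
        subst hy
        exact h2 hxD
      have hsj : x :: s ∈ XX A j := by
        have := hs [] (nil_mem_XX hn j)
        simpa using this
      have hqs3 : q :: s3 ∉ XX A i := by
        intro hc
        rw [he] at hsj
        exact cut hs1 hs10 hc hij hsj
      have hqA : q :: s3 ∈ A := by
        refine hA _ _ (XX_sub _ hsj) ?_
        rw [he]
        exact List.sublist_append_right _ _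
      obtain ⟨m, hmi, hqm⟩ : ∃ m, m < i ∧ [q] ∈ SS A m := by
        by_contra hcon
        push Not at hcon
        exact hqs3 (stay0 hPi hqA hcon)
      refine no_pair hA hn hP hmi hij hxi hqm h2 j hij.le le_rfl ?_
      intro d u hd hu
      refine D_mul hA j d u ?_ hu
      intro y hy
      rcases hd y hy with rfl | rfl
      · exact hlet _ List.mem_cons_self
      · refine hlet _ ?_
        rw [he]
        simp

/-- Downward closed languages: the procedure terminates within `|α|` steps. -/
theorem down_terminates [Fintype α] (hne : A.Nonempty) :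
    ∃ n ≤ Fintype.card α, leftStar (minTail^[n] A) = {[]} := by
  classical
  have hn : [] ∈ A := by
    obtain ⟨a, ha⟩ := hne
    exact hA _ _ ha (List.nil_sublist _)
  by_contra hcon
  push Not at hcon
  have h1 : ∀ n : Fin (Fintype.card α + 1), ∃ x : α, [x] ∈ SS A n := by
    intro n
    rcases eq_singleton_or (XX A n) with h | ⟨s, hs, h0⟩
    · exact absurd h (hcon n (Nat.lt_succ_iff.mp n.2))
    · cases s with
      | nil => exact absurd rfl h0
      | cons x s => exact ⟨x, PP_all hA hn n x s hs⟩
  choose f hf using h1
  have hinj : Function.Injective f := by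
    intro a b hab
    have h2 := hf a
    rw [hab] at h2
    exact Fin.ext (SS_inj hn (List.cons_ne_nil _ _) h2 (hf b))
  have := Fintype.card_le_of_injective f hinj
  simp at this

end Down

end Pool.Agent.Hhelper75.Star
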