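import Pool.Agent.Hhelper75.Star.Basic

/-!
# Termination for languages of small growth, and for small complements
-/

namespace Pool.Agent.Hhelper75.Star

variable {α : Type}

/-- `D` has at most `c * (n + 1) ^ d` words of length at most `n`, for every `n`. -/
def GrowthBound (D : Set (List α)) (c d : ℕ) : Prop :=
  ∀ n : ℕ, (D ∩ {w | w.length ≤ n}).ncard ≤ c * (n + 1) ^ d

/-- The power `s ^ i` of a word. -/
def pw (s : List α) (i : ℕ) : List α := (List.replicate i s).flatten

@[simp] theorem pw_zero (s : List α) : pw s 0 = [] := rfl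

theorem pw_succ (s : List α) (i : ℕ) : pw s (i + 1) = s ++ pw s i := rfl

theorem length_pw (s : List α) (i : ℕ) : (pw s i).length = i * s.length := by
  induction i with
  | zero => simp
  | succ i ih => rw [pw_succ, List.length_append, ih]; ring

theorem pw_mem {X : Set (List α)} {s : List α} (hs : s ∈ leftStar X) (i : ℕ) :
    pw s i ∈ leftStar X := by
  induction i with
  | zero => exact nil_mem_leftStar X
  | succ i ih => exact append_mem_leftStar hs ih

theorem pw_ne_nil {s : List α} (hs : s ≠ []) {i : ℕ} (hi : 0 < i) : pw s i ≠ [] := by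
  intro h
  have := congrArg List.length h
  rw [length_pw] at this
  have hpos : 0 < s.length := List.length_pos_iff.mpr hs
  have : 0 < i * s.length := Nat.mul_pos hi hpos
  simp_all

theorem pw_cancel {X : Set (List α)} {s : List α} (hs : s ∈ leftStar X) (h0 : s ≠ []) :
    ∀ (i j : ℕ) (c c' : List α), c ∈ minTail X → c' ∈ minTail X →
      pw s i ++ c = pw s j ++ c' → i = j ∧ c = c' := by
  intro i
  induction i with
  | zero =>
    intro j c c' hc hc' h
    cases j with
    | zero => exact ⟨rfl, by simpa using h⟩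
    | succ j =>
      exfalso
      refine hc.2 ⟨pw s (j + 1), pw_ne_nil h0 (Nat.succ_pos j), pw_mem hs _, c', hc'.1, ?_⟩
      simpa using h.symm
  | succ i ih =>
    intro j c c' hc hc' h
    cases j with
    | zero =>
      exfalso
      refine hc'.2 ⟨pw s (i + 1), pw_ne_nil h0 (Nat.succ_pos i), pw_mem hs _, c, hc.1, ?_⟩
      simpa using h
    | succ j =>
      rw [pw_succ, pw_succ, List.append_assoc, List.append_assoc] at h
      have h' := List.append_cancel_left h
      obtain ⟨h1, h2⟩ := ih j c c' hc hc' h'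
      exact ⟨by rw [h1], h2⟩

theorem finite_short [Fintype α] (X : Set (List α)) (n : ℕ) :
    (X ∩ {w | w.length ≤ n}).Finite :=
  (List.finite_length_le α n).subset Set.inter_subset_right

theorem GrowthBound.mono [Fintype α] {X Y : Set (List α)} {c d : ℕ} (hY : GrowthBound Y c d)
    (h : X ⊆ Y) : GrowthBound X c d := fun n =>
  (Set.ncard_le_ncard (Set.inter_subset_inter_left _ h) (finite_short Y n)).trans (hY n)

/-- The counting inequality behind the growth argument. -/
theorem count_le [Fintype α] {X : Set (List α)} {s : List α} (hs : s ∈ leftStar X)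
    (h0 : s ≠ []) (n : ℕ) :
    (n / s.length + 1) * (minTail X ∩ {w | w.length ≤ n}).ncard ≤
      (X ∩ {w | w.length ≤ 2 * n}).ncard := by
  classical
  have hpos : 0 < s.length := List.length_pos_iff.mpr h0
  set F := (finite_short (minTail X) n).toFinset with hF
  set G := (finite_short X (2 * n)).toFinset with hG
  have e1 : (minTail X ∩ {w | w.length ≤ n}).ncard = F.card :=
    Set.ncard_eq_toFinset_card _ (finite_short (minTail X) n)
  have e2 : (X ∩ {w | w.length ≤ 2 * n}).ncard = G.card :=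
    Set.ncard_eq_toFinset_card _ (finite_short X (2 * n))
  rw [e1, e2]
  have e3 : (n / s.length + 1) * F.card = ((Finset.range (n / s.length + 1)) ×ˢ F).card := by
    rw [Finset.card_product, Finset.card_range]
  rw [e3]
  apply Finset.card_le_card_of_injOn (fun p => pw s p.1 ++ p.2)
  · rintro ⟨i, c⟩ hp
    have hp' := Finset.mem_coe.mp hp
    rw [Finset.mem_product, Finset.mem_range, hF, Set.Finite.mem_toFinset] at hp'
    obtain ⟨hi, hc, hlen⟩ := hp'
    rw [Finset.mem_coe, hG, Set.Finite.mem_toFinset]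
    refine ⟨pw_mem hs i c hc.1, ?_⟩
    have hi' : i ≤ n / s.length := Nat.lt_succ_iff.mp hi
    have : i * s.length ≤ n := (Nat.le_div_iff_mul_le hpos).mp hi'
    have hlen' : c.length ≤ n := hlen
    change (pw s i ++ c).length ≤ 2 * n
    rw [List.length_append, length_pw]
    omega
  · rintro ⟨i, c⟩ hp ⟨j, c'⟩ hp' h
    have h1 := Finset.mem_coe.mp hp
    have h2 := Finset.mem_coe.mp hp'
    rw [Finset.mem_product, Finset.mem_range, hF, Set.Finite.mem_toFinset] at h1 h2
    obtain ⟨e, e'⟩ := pw_cancel hs h0 i j c c' h1.2.1 h2.2.1 h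
    exact Prod.ext e e'

theorem growth_minTail_mul [Fintype α] {X : Set (List α)} {c d : ℕ} (hg : GrowthBound X c d)
    {s : List α} (hs : s ∈ leftStar X) (h0 : s ≠ []) (n : ℕ) :
    (n + 1) * (minTail X ∩ {w | w.length ≤ n}).ncard ≤ s.length * c * 2 ^ d * (n + 1) ^ d := by
  have hpos : 0 < s.length := List.length_pos_iff.mpr h0
  have h1 := count_le hs h0 n
  have h2 := hg (2 * n)
  have h3 : n + 1 ≤ s.length * (n / s.length + 1) := by
    have := Nat.lt_mul_div_succ n hpos
    omega
  calc (n + 1) * (minTail X ∩ {w | w.length ≤ n}).ncard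
      ≤ (s.length * (n / s.length + 1)) * (minTail X ∩ {w | w.length ≤ n}).ncard :=
        Nat.mul_le_mul_right _ h3
    _ = s.length * ((n / s.length + 1) * (minTail X ∩ {w | w.length ≤ n}).ncard) := by ring
    _ ≤ s.length * (c * (2 * n + 1) ^ d) := Nat.mul_le_mul_left _ (h1.trans h2)
    _ ≤ s.length * (c * (2 * (n + 1)) ^ d) := by gcongr; omega
    _ = s.length * c * 2 ^ d * (n + 1) ^ d := by rw [mul_pow]; ring

theorem growth_terminates [Fintype α] (d : ℕ) :
    ∀ (X : Set (List α)), X.Nonempty → ∀ c : ℕ, GrowthBound X c d →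
      ∃ n ≤ d, leftStar (minTail^[n] X) = {[]} := by
  induction d with
  | zero =>
    intro X hX c hg
    refine ⟨0, le_rfl, ?_⟩
    rcases eq_singleton_or X with h | ⟨s, hs, h0⟩
    · exact h
    · exfalso
      obtain ⟨w, hw⟩ := minTail_nonempty hX
      set n := w.length + s.length * c with hn
      have h1 := growth_minTail_mul hg hs h0 n
      have h2 : 1 ≤ (minTail X ∩ {w | w.length ≤ n}).ncard := by
        rw [Nat.one_le_iff_ne_zero, Ne, Set.ncard_eq_zero (finite_short _ _)]
        intro he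
        have : w ∈ minTail X ∩ {w | w.length ≤ n} := ⟨hw, by simp [hn]⟩
        rw [he] at this
        exact this
      simp only [pow_zero, mul_one] at h1
      have h3 : (n + 1) * 1 ≤ (n + 1) * (minTail X ∩ {w | w.length ≤ n}).ncard :=
        Nat.mul_le_mul_left _ h2
      omega
  | succ d ih =>
    intro X hX c hg
    rcases eq_singleton_or X with h | ⟨s, hs, h0⟩
    · exact ⟨0, Nat.zero_le _, h⟩
    · have hg' : GrowthBound (minTail X) (s.length * c * 2 ^ (d + 1)) d := by
        intro n
        have h1 := growth_minTail_mul hg hs h0 n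
        have h2 : (n + 1) * (minTail X ∩ {w | w.length ≤ n}).ncard ≤
            (n + 1) * (s.length * c * 2 ^ (d + 1) * (n + 1) ^ d) := by
          calc _ ≤ _ := h1
            _ = _ := by ring
        exact Nat.le_of_mul_le_mul_left h2 (Nat.succ_pos n)
      obtain ⟨n, hn, he⟩ := ih (minTail X) (minTail_nonempty hX) _ hg'
      exact ⟨n + 1, Nat.succ_le_succ hn, by rw [Function.iterate_succ_apply]; exact he⟩

/-- Growth of a product. -/
theorem GrowthBound.mul [Fintype α] {X Y : Set (List α)} {c d c' d' : ℕ}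
    (hX : GrowthBound X c d) (hY : GrowthBound Y c' d') :
    GrowthBound {w | ∃ x ∈ X, ∃ y ∈ Y, x ++ y = w} (c * c') (d + d') := by
  classical
  intro n
  have h1 : ({w | ∃ x ∈ X, ∃ y ∈ Y, x ++ y = w} ∩ {w | w.length ≤ n}) ⊆
      (fun p : List α × List α => p.1 ++ p.2) ''
        ((X ∩ {w | w.length ≤ n}) ×ˢ (Y ∩ {w | w.length ≤ n})) := by
    rintro w ⟨⟨x, hx, y, hy, rfl⟩, hlen⟩
    have hlen' : (x ++ y).length ≤ n := hlen
    rw [List.length_append] at hlen'
    exact ⟨(x, y), ⟨⟨hx, by change x.length ≤ n; omega⟩, ⟨hy, by change y.length ≤ n; omega⟩⟩, rfl⟩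
  have hfin : ((X ∩ {w | w.length ≤ n}) ×ˢ (Y ∩ {w | w.length ≤ n})).Finite :=
    (finite_short X n).prod (finite_short Y n)
  calc ({w | ∃ x ∈ X, ∃ y ∈ Y, x ++ y = w} ∩ {w | w.length ≤ n}).ncard
      ≤ ((fun p : List α × List α => p.1 ++ p.2) ''
        ((X ∩ {w | w.length ≤ n}) ×ˢ (Y ∩ {w | w.length ≤ n}))).ncard :=
        Set.ncard_le_ncard h1 (hfin.image _)
    _ ≤ ((X ∩ {w | w.length ≤ n}) ×ˢ (Y ∩ {w | w.length ≤ n})).ncard :=
        Set.ncard_image_le hfin
    _ = (X ∩ {w | w.length ≤ n}).ncard * (Y ∩ {w | w.length ≤ n}).ncard := Set.ncard_prod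
    _ ≤ (c * (n + 1) ^ d) * (c' * (n + 1) ^ d') := Nat.mul_le_mul (hX n) (hY n)
    _ = c * c' * (n + 1) ^ (d + d') := by rw [pow_add]; ring

theorem GrowthBound.union [Fintype α] {X Y : Set (List α)} {c d c' d' : ℕ}
    (hX : GrowthBound X c d) (hY : GrowthBound Y c' d') :
    GrowthBound (X ∪ Y) (c + c') (max d d') := by
  intro n
  rw [Set.union_inter_distrib_right]
  calc _ ≤ (X ∩ {w | w.length ≤ n}).ncard + (Y ∩ {w | w.length ≤ n}).ncard :=
        Set.ncard_union_le _ _
    _ ≤ c * (n + 1) ^ d + c' * (n + 1) ^ d' := Nat.add_le_add (hX n) (hY n)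
    _ ≤ c * (n + 1) ^ (max d d') + c' * (n + 1) ^ (max d d') := by
        gcongr
        · omega
        · exact le_max_left _ _
        · omega
        · exact le_max_right _ _
    _ = (c + c') * (n + 1) ^ (max d d') := by ring

theorem growth_singleton (w : List α) : GrowthBound {w} 1 0 := by
  intro n
  calc (({w} : Set (List α)) ∩ {w | w.length ≤ n}).ncard ≤ ({w} : Set (List α)).ncard :=
        Set.ncard_le_ncard Set.inter_subset_left (Set.finite_singleton w)
    _ = 1 * (n + 1) ^ 0 := by simp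

/-- If `A = B D` with `B` a star, the minimal tail of `A` is contained in `D`. -/
theorem minTail_subset_of_mul {A B D : Set (List α)} (hB : [] ∈ B)
    (hBB : ∀ b ∈ B, ∀ b' ∈ B, b ++ b' ∈ B) (hA : A = {w | ∃ b ∈ B, ∃ d ∈ D, b ++ d = w}) :
    minTail A ⊆ D := by
  rintro w ⟨hw, hno⟩
  have hw' := hw
  rw [hA] at hw'
  obtain ⟨b, hb, d, hd, rfl⟩ := hw'
  by_cases h0 : b = []
  · subst h0; simpa using hd
  · exfalso
    refine hno ⟨b, h0, ?_, d, ?_, rfl⟩
    · intro a ha
      rw [hA] at ha ⊢
      obtain ⟨b', hb', d', hd', rfl⟩ := ha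
      exact ⟨b ++ b', hBB b hb b' hb', d', hd', by rw [List.append_assoc]⟩
    · rw [hA]
      exact ⟨[], hB, d, hd, rfl⟩

theorem mul_terminates [Fintype α] {A B D : Set (List α)} (hne : A.Nonempty) {c d : ℕ}
    (hB : [] ∈ B) (hBB : ∀ b ∈ B, ∀ b' ∈ B, b ++ b' ∈ B)
    (hA : A = {w | ∃ b ∈ B, ∃ d ∈ D, b ++ d = w}) (hD : GrowthBound D c d) :
    ∃ n ≤ d + 1, leftStar (minTail^[n] A) = {[]} := by
  have hg : GrowthBound (minTail A) c d := hD.mono (minTail_subset_of_mul hB hBB hA)
  obtain ⟨n, hn, he⟩ := growth_terminates d (minTail A) (minTail_nonempty hne) c hg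
  exact ⟨n + 1, Nat.succ_le_succ hn, by rw [Function.iterate_succ_apply]; exact he⟩

/-- The prefixes of words of `N`, together with the empty word. -/
def prefs (N : Set (List α)) : Set (List α) := {u | ∃ v, u ++ v ∈ N} ∪ {[]}

/-- The minimal tail of `G* D \ N` is small. -/
theorem minTail_subset_of_diff {A G D N : Set (List α)}
    (hA : A = {w | (∃ L : List (List α), (∀ g ∈ L, g ∈ G) ∧ ∃ d ∈ D, L.flatten ++ d = w) ∧
      w ∉ N}) :
    minTail A ⊆ {w | ∃ x ∈ prefs N, ∃ y ∈ D, x ++ y = w} ∪
      {w | ∃ x ∈ prefs N, ∃ y ∈ {w | ∃ g ∈ G, ∃ z ∈ N, g ++ z = w}, x ++ y = w} := by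
  rintro w ⟨hw, hno⟩
  have hw' := hw
  rw [hA] at hw'
  obtain ⟨⟨L, hL, d, hd, hLd⟩, hwN⟩ := hw'
  -- walk along `L`
  have key : ∀ (L : List (List α)) (p : List α), (∀ g ∈ L, g ∈ G) → p ∈ prefs N →
      (∃ K : List (List α), (∀ g ∈ K, g ∈ G) ∧ K.flatten = p) → p ++ (L.flatten ++ d) = w →
      w ∈ {w | ∃ x ∈ prefs N, ∃ y ∈ D, x ++ y = w} ∪
      {w | ∃ x ∈ prefs N, ∃ y ∈ {w | ∃ g ∈ G, ∃ z ∈ N, g ++ z = w}, x ++ y = w} := by
    intro L
    induction L with
    | nil =>
      intro p _ hp _ he
      left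
      exact ⟨p, hp, d, hd, by simpa using he⟩
    | cons g L ih =>
      intro p hL hp hK he
      obtain ⟨K, hK, hKp⟩ := hK
      have hgG : g ∈ G := hL g List.mem_cons_self
      by_cases hpg : p ++ g ∈ prefs N
      · refine ih (p ++ g) (fun g' hg' => hL g' (List.mem_cons_of_mem _ hg')) hpg
          ⟨K ++ [g], ?_, by simp [hKp]⟩ ?_
        · intro g' hg'
          rcases List.mem_append.mp hg' with h | h
          · exact hK g' h
          · rw [List.mem_singleton.mp h]; exact hgG
        · rw [← he]; simp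
      · right
        refine ⟨p, hp, g ++ (L.flatten ++ d), ⟨g, hgG, L.flatten ++ d, ?_, rfl⟩, ?_⟩
        · -- the rest is in `N`
          by_contra hz
          have hzA : L.flatten ++ d ∈ A := by
            rw [hA]
            exact ⟨⟨L, fun g' hg' => hL g' (List.mem_cons_of_mem _ hg'), d, hd, rfl⟩, hz⟩
          refine hno ⟨p ++ g, ?_, ?_, L.flatten ++ d, hzA, ?_⟩
          · intro h0
            apply hpg
            rw [h0]
            exact Or.inr rfl
          · intro a ha
            rw [hA] at ha ⊢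
            obtain ⟨⟨L', hL', d', hd', rfl⟩, -⟩ := ha
            refine ⟨⟨K ++ (g :: L'), ?_, d', hd', ?_⟩, ?_⟩
            · intro g' hg'
              rcases List.mem_append.mp hg' with h | h
              · exact hK g' h
              · rcases List.mem_cons.mp h with rfl | h
                · exact hgG
                · exact hL' g' h
            · simp [hKp]
            · intro hN
              exact hpg (Or.inl ⟨_, hN⟩)
          · rw [← he]; simp
        · rw [← he]; simp
  exact key L [] hL (Or.inr rfl) ⟨[], by simp, rfl⟩ (by simpa using hLd)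

theorem diff_terminates [Fintype α] {A G D N : Set (List α)} (hne : A.Nonempty)
    {c₁ c₂ c₃ g d p : ℕ}
    (hA : A = {w | (∃ L : List (List α), (∀ g ∈ L, g ∈ G) ∧ ∃ d ∈ D, L.flatten ++ d = w) ∧
      w ∉ N}) (hG : GrowthBound G c₁ g) (hD : GrowthBound D c₂ d)
    (hN : GrowthBound {u | ∃ v, u ++ v ∈ N} c₃ p) :
    ∃ n ≤ max (p + d) (2 * p + g) + 1, leftStar (minTail^[n] A) = {[]} := by
  have hP : GrowthBound (prefs N) (c₃ + 1) (max p 0) := hN.union (growth_singleton [])
  rw [Nat.max_zero] at hP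
  have hN' : GrowthBound N c₃ p := hN.mono (fun w hw => ⟨[], by simpa using hw⟩)
  have h1 := (hP.mul hD).union (hP.mul (hG.mul hN'))
  have h2 := h1.mono (minTail_subset_of_diff hA)
  obtain ⟨n, hn, he⟩ := growth_terminates _ (minTail A) (minTail_nonempty hne) _ h2
  refine ⟨n + 1, Nat.succ_le_succ (hn.trans ?_), by rw [Function.iterate_succ_apply]; exact he⟩
  apply max_le_max le_rfl
  omega

/-- Prefixes of words of a regular language of small growth have small growth. -/
theorem prefix_growth [Fintype α] {σ : Type} [Fintype σ] (M : DFA α σ) {N : Set (List α)}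
    (hM : ∀ x : List α, x ∈ N ↔ x ∈ M.accepts) {c p : ℕ} (hN : GrowthBound N c p) :
    ∃ c', GrowthBound {u | ∃ v, u ++ v ∈ N} c' p := by
  classical
  -- a completing word for every state that has one
  have h1 : ∀ q : σ, ∃ v : List α, (∃ v', M.evalFrom q v' ∈ M.accept) →
      M.evalFrom q v ∈ M.accept := by
    intro q
    by_cases h : ∃ v', M.evalFrom q v' ∈ M.accept
    · obtain ⟨v', hv'⟩ := h
      exact ⟨v', fun _ => hv'⟩
    · exact ⟨[], fun h' => absurd h' h⟩
  choose f hf using h1
  set K := Finset.univ.sup (fun q => (f q).length) with hK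
  have hfK : ∀ q, (f q).length ≤ K := fun q => Finset.le_sup (f := fun q => (f q).length)
    (Finset.mem_univ q)
  refine ⟨(K + 1) * (c * (K + 1) ^ p), ?_⟩
  intro n
  have hacc : ∀ (u v : List α), u ++ v ∈ N ↔ M.evalFrom (M.eval u) v ∈ M.accept := by
    intro u v
    rw [hM, DFA.mem_accepts]
    change M.evalFrom M.start (u ++ v) ∈ M.accept ↔ M.evalFrom (M.evalFrom M.start u) v ∈ M.accept
    rw [DFA.evalFrom_of_append]
  set F := (finite_short {u | ∃ v, u ++ v ∈ N} n).toFinset with hF
  set H := (finite_short N (n + K)).toFinset with hH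
  have e1 : ({u | ∃ v, u ++ v ∈ N} ∩ {w | w.length ≤ n}).ncard = F.card :=
    Set.ncard_eq_toFinset_card _ _
  have e2 : (N ∩ {w | w.length ≤ n + K}).ncard = H.card := Set.ncard_eq_toFinset_card _ _
  rw [e1]
  have h2 : F.card ≤ ((Finset.range (K + 1)) ×ˢ H).card := by
    apply Finset.card_le_card_of_injOn (fun u => ((f (M.eval u)).length, u ++ f (M.eval u)))
    · intro u hu
      have hu' := Finset.mem_coe.mp hu
      rw [hF, Set.Finite.mem_toFinset] at hu'
      obtain ⟨⟨v, hv⟩, hlen⟩ := hu'
      have hlen' : u.length ≤ n := hlen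
      rw [Finset.mem_coe, Finset.mem_product, Finset.mem_range, hH, Set.Finite.mem_toFinset]
      refine ⟨Nat.lt_succ_of_le (hfK _), (hacc _ _).mpr (hf _ ⟨v, (hacc _ _).mp hv⟩), ?_⟩
      change (u ++ f (M.eval u)).length ≤ n + K
      rw [List.length_append]
      have := hfK (M.eval u)
      omega
    · intro u _ u' _ h
      have h1 : (f (M.eval u)).length = (f (M.eval u')).length := congrArg Prod.fst h
      have h2 : u ++ f (M.eval u) = u' ++ f (M.eval u') := congrArg Prod.snd h
      exact List.append_inj_left' h2 h1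
  rw [Finset.card_product, Finset.card_range, ← e2] at h2
  calc F.card ≤ (K + 1) * (N ∩ {w | w.length ≤ n + K}).ncard := h2
    _ ≤ (K + 1) * (c * (n + K + 1) ^ p) := Nat.mul_le_mul_left _ (hN (n + K))
    _ ≤ (K + 1) * (c * ((K + 1) * (n + 1)) ^ p) := by
        gcongr
        nlinarith
    _ = (K + 1) * (c * (K + 1) ^ p) * (n + 1) ^ p := by rw [mul_pow]; ring

/-- Regular languages whose complement has polynomially bounded growth. -/
theorem compl_terminates [Fintype α] {σ : Type} [Fintype σ] (M : DFA α σ) {A : Set (List α)}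
    (hne : A.Nonempty) (hM : ∀ x : List α, x ∈ A ↔ x ∈ M.accepts) {c p : ℕ}
    (hN : GrowthBound Aᶜ c p) : ∃ n ≤ 2 * p + 1, leftStar (minTail^[n] A) = {[]} := by
  classical
  have hM' : ∀ x : List α, x ∈ Aᶜ ↔ x ∈ (Mᶜ).accepts := by
    intro x
    rw [Set.mem_compl_iff, hM, DFA.mem_accepts, DFA.mem_accepts]
    rfl
  obtain ⟨c', hc'⟩ := prefix_growth Mᶜ hM' hN
  have hG : GrowthBound (Set.range (fun x : α => [x])) (Fintype.card α) 0 := by
    intro n
    rw [pow_zero, mul_one]
    calc _ ≤ (Set.range (fun x : α => [x])).ncard :=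
          Set.ncard_le_ncard Set.inter_subset_left (Set.finite_range _)
      _ ≤ Fintype.card α := by
          rw [← Set.image_univ]
          refine (Set.ncard_image_le Set.finite_univ).trans ?_
          rw [Set.ncard_univ, Nat.card_eq_fintype_card]
  have hA : A = {w | (∃ L : List (List α), (∀ g ∈ L, g ∈ Set.range (fun x : α => [x])) ∧
      ∃ d ∈ ({[]} : Set (List α)), L.flatten ++ d = w) ∧ w ∉ Aᶜ} := by
    ext w
    constructor
    · intro hw
      refine ⟨⟨w.map (fun x => [x]), ?_, [], rfl, ?_⟩, fun h => h hw⟩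
      · intro g hg
        obtain ⟨x, -, rfl⟩ := List.mem_map.mp hg
        exact ⟨x, rfl⟩
      · rw [List.append_nil]
        induction w with
        | nil => rfl
        | cons x w ih =>
          have : ∀ w : List α, (w.map (fun x => [x])).flatten = w := by
            intro w
            induction w with
            | nil => rfl
            | cons y w ih => simp [ih]
          exact this _
    · rintro ⟨-, h⟩
      exact not_not.mp h
  obtain ⟨n, hn, he⟩ := diff_terminates hne hA hG (growth_singleton []) hc'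
  refine ⟨n, hn.trans ?_, he⟩
  simp only [Nat.add_zero]
  rw [max_eq_right (by omega)]

/-- The combined growth theorem: `A = G* D \ N` with `N` regular. -/
theorem combined_terminates [Fintype α] {σ : Type} [Fintype σ] (M : DFA α σ)
    {A G D N : Set (List α)} (hne : A.Nonempty) {c₁ c₂ c₃ g d p : ℕ}
    (hA : A = {w | (∃ L : List (List α), (∀ g ∈ L, g ∈ G) ∧ ∃ d ∈ D, L.flatten ++ d = w) ∧
      w ∉ N}) (hG : N = ∅ ∨ GrowthBound G c₁ g) (hD : GrowthBound D c₂ d)
    (hM : ∀ x : List α, x ∈ N ↔ x ∈ M.accepts) (hN : GrowthBound N c₃ p) :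
    ∃ n ≤ max (p + d) (2 * p + g) + 1, leftStar (minTail^[n] A) = {[]} := by
  rcases hG with h0 | hG
  · have hA' : A = {w | ∃ b ∈ {w | ∃ L : List (List α), (∀ g ∈ L, g ∈ G) ∧ L.flatten = w},
        ∃ d ∈ D, b ++ d = w} := by
      rw [hA, h0]
      ext w
      constructor
      · rintro ⟨⟨L, hL, d, hd, h⟩, -⟩
        exact ⟨L.flatten, ⟨L, hL, rfl⟩, d, hd, h⟩
      · rintro ⟨b, ⟨L, hL, rfl⟩, d, hd, h⟩
        exact ⟨⟨L, hL, d, hd, h⟩, fun h => h⟩
    obtain ⟨n, hn, he⟩ := mul_terminates hne (B := {w | ∃ L : List (List α), (∀ g ∈ L, g ∈ G) ∧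
      L.flatten = w}) ⟨[], by simp, rfl⟩ (by
        rintro b ⟨L, hL, rfl⟩ b' ⟨L', hL', rfl⟩
        refine ⟨L ++ L', ?_, by simp⟩
        intro g hg
        rcases List.mem_append.mp hg with h | h
        · exact hL g h
        · exact hL' g h) hA' hD
    refine ⟨n, hn.trans ?_, he⟩
    have h1 : p + d ≤ max (p + d) (2 * p + g) := le_max_left _ _
    omega
  · obtain ⟨c', hc'⟩ := prefix_growth M hM hN
    exact diff_terminates hne hA hG hD hc'

end Pool.Agent.Hhelper75.Star
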